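import Mathlib

/-!
# MP_285f62_co : triangle factors of a graph and of two consecutive blow-ups

The answer to Q1 is negative.  Let `G` be the graph on nine vertices consisting of a `K₅` on
`{0,1,2,3,4}`, a `K₄` on `{5,6,7,8}` and the two further edges `4-5`, `4-6`.  Then `G(2)` and
`G(3)` have triangle factors and `G` has none.
-/

namespace Pool.Agent.Results.MP_285f62_co.BlowUps

open Finset

/-- The blow-up `G(t)`: every vertex `v` is replaced by the `t` vertices `(v, i)`, and `(u, i)`,
`(v, j)` are adjacent if and only if `u`, `v` are adjacent in `G`. -/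
def blowUp {V : Type*} (G : SimpleGraph V) (t : ℕ) : SimpleGraph (V × Fin t) where
  Adj x y := G.Adj x.1 y.1
  symm := ⟨fun _ _ h => h.symm⟩
  loopless := ⟨fun x h => G.loopless.irrefl x.1 h⟩

instance {V : Type*} (G : SimpleGraph V) [DecidableRel G.Adj] (t : ℕ) :
    DecidableRel (blowUp G t).Adj :=
  fun x y => inferInstanceAs (Decidable (G.Adj x.1 y.1))

/-- `H` has a triangle factor: its vertex set is partitioned into sets of size `3`, each of which
spans a triangle. -/
def HasTriangleFactor {W : Type*} (H : SimpleGraph W) : Prop :=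
  ∃ P : Finset (Finset W), (∀ s ∈ P, H.IsNClique 3 s) ∧
    (∀ s ∈ P, ∀ s' ∈ P, s ≠ s' → Disjoint s s') ∧ ∀ v : W, ∃ s ∈ P, v ∈ s

/-- The counterexample: `K₅` on `{0,…,4}`, `K₄` on `{5,…,8}` and the edges `4-5`, `4-6`. -/
def G : SimpleGraph (Fin 9) where
  Adj i j := i ≠ j ∧ ((i < 5 ∧ j < 5) ∨ (5 ≤ i ∧ 5 ≤ j) ∨ (i = 4 ∧ (j = 5 ∨ j = 6)) ∨
    (j = 4 ∧ (i = 5 ∨ i = 6)))
  symm := ⟨by decide⟩
  loopless := ⟨by decide⟩

instance : DecidableRel G.Adj := fun i j => by
  unfold G
  infer_instance

lemma factor_of_coloring {W : Type*} [Fintype W] [DecidableEq W] (H : SimpleGraph W) {m : ℕ}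
    (c : W → Fin m) (h1 : ∀ x y, c x = c y → x ≠ y → H.Adj x y)
    (h2 : ∀ i, (univ.filter (fun x => c x = i)).card = 3) : HasTriangleFactor H := by
  refine ⟨univ.image (fun i : Fin m => univ.filter (fun x => c x = i)), ?_, ?_, ?_⟩
  · intro s hs
    obtain ⟨i, -, rfl⟩ := mem_image.1 hs
    refine ⟨?_, h2 i⟩
    intro x hx y hy hne
    simp only [coe_filter, mem_univ, true_and, Set.mem_ofPred_eq] at hx hy
    exact h1 x y (hx.trans hy.symm) hne
  · intro s hs s' hs' hne
    obtain ⟨i, -, rfl⟩ := mem_image.1 hs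
    obtain ⟨j, -, rfl⟩ := mem_image.1 hs'
    rw [disjoint_left]
    intro x hx hx'
    simp only [mem_filter, mem_univ, true_and] at hx hx'
    apply hne
    rw [← hx, ← hx']
  · intro v
    exact ⟨_, mem_image_of_mem _ (mem_univ (c v)), by simp⟩

/-- The blocks of a triangle factor of `G(2)`. -/
def c2 (x : Fin 9 × Fin 2) : Fin 6 :=
  (![![3, 4], ![3, 5], ![4, 5], ![4, 5], ![0, 3], ![0, 1], ![0, 2], ![1, 2], ![1, 2]] :
    Fin 9 → Fin 2 → Fin 6) x.1 x.2

lemma factor_two : HasTriangleFactor (blowUp G 2) := by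
  apply factor_of_coloring (blowUp G 2) c2
  · decide +kernel
  · decide +kernel

/-- The blocks of a triangle factor of `G(3)`. -/
def c3 (x : Fin 9 × Fin 3) : Fin 9 :=
  (![![4, 7, 8], ![4, 5, 8], ![4, 5, 6], ![5, 6, 7], ![6, 7, 8], ![0, 1, 2], ![0, 1, 3],
    ![0, 2, 3], ![1, 2, 3]] : Fin 9 → Fin 3 → Fin 9) x.1 x.2

lemma factor_three : HasTriangleFactor (blowUp G 3) := by
  apply factor_of_coloring (blowUp G 3) c3
  · decide +kernel
  · decide +kernel

lemma clique_sub {s : Finset (Fin 9)} (hs : G.IsNClique 3 s) {x : Fin 9} (hx : x ∈ s)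
    (T : Finset (Fin 9)) (hxT : x ∈ T) (hT : ∀ y, G.Adj x y → y ∈ T) : s ⊆ T := by
  intro y hy
  by_cases h : x = y
  · exact h ▸ hxT
  · exact hT y (hs.isClique hx hy h)

lemma no_factor : ¬ HasTriangleFactor G := by
  rintro ⟨P, h1, h2, h3⟩
  obtain ⟨s, hs, h7⟩ := h3 7
  obtain ⟨s', hs', h8⟩ := h3 8
  have a1 : s ⊆ {5, 6, 7, 8} := clique_sub (h1 s hs) h7 _ (by decide) (by decide)
  have a2 : s' ⊆ {5, 6, 7, 8} := clique_sub (h1 s' hs') h8 _ (by decide) (by decide)
  have hss : s = s' := by
    by_contra hne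
    have hd := h2 s hs s' hs' hne
    have hc : (s ∪ s').card ≤ ({5, 6, 7, 8} : Finset (Fin 9)).card :=
      card_le_card (union_subset a1 a2)
    rw [card_union_of_disjoint hd, (h1 s hs).card_eq, (h1 s' hs').card_eq] at hc
    revert hc
    decide
  subst hss
  -- one of `5`, `6` is not in `s`
  have key : ∀ y : Fin 9, (y = 5 ∨ y = 6) → y ∉ s → (∀ z, z = 5 ∨ z = 6 → z ≠ y → z ∈ s) →
      False := by
    intro y hy hys hz
    obtain ⟨u, hu, hyu⟩ := h3 y
    have hne : u ≠ s := fun h => hys (h ▸ hyu)
    have hd := h2 u hu s hs hne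
    have a3 : u ⊆ {4, 5, 6, 7, 8} := by
      rcases hy with rfl | rfl
      · exact clique_sub (h1 u hu) hyu _ (by decide) (by decide)
      · exact clique_sub (h1 u hu) hyu _ (by decide) (by decide)
    have a4 : u ⊆ {4, y} := by
      intro w hw
      have hw1 := a3 hw
      have hws : w ∉ s := fun h => (disjoint_left.1 hd) hw h
      have w7 : w ≠ 7 := fun h => hws (h ▸ h7)
      have w8 : w ≠ 8 := fun h => hws (h ▸ h8)
      simp only [mem_insert, mem_singleton] at hw1 ⊢
      by_cases hwy : w = y
      · exact Or.inr hwy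
      · rcases hw1 with h | h | h | h | h
        · exact Or.inl h
        · exact absurd (hz w (Or.inl h) hwy) hws
        · exact absurd (hz w (Or.inr h) hwy) hws
        · exact absurd h w7
        · exact absurd h w8
    have hc := card_le_card a4
    rw [(h1 u hu).card_eq] at hc
    have := card_le_two (a := (4 : Fin 9)) (b := y)
    omega
  have hcard := (h1 s hs).card_eq
  by_cases h5 : (5 : Fin 9) ∈ s
  · by_cases h6 : (6 : Fin 9) ∈ s
    · have : ({5, 6, 7, 8} : Finset (Fin 9)) ⊆ s := by
        intro w hw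
        simp only [mem_insert, mem_singleton] at hw
        rcases hw with rfl | rfl | rfl | rfl <;> assumption
      have hc := card_le_card this
      rw [hcard] at hc
      revert hc
      decide
    · refine key 6 (Or.inr rfl) h6 ?_
      intro z hz hne
      rcases hz with rfl | rfl
      · exact h5
      · exact absurd rfl hne
  · by_cases h6 : (6 : Fin 9) ∈ s
    · refine key 5 (Or.inl rfl) h5 ?_
      intro z hz hne
      rcases hz with rfl | rfl
      · exact absurd rfl hne
      · exact h6
    · have : s ⊆ {7, 8} := by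
        intro w hw
        have hw1 := a1 hw
        simp only [mem_insert, mem_singleton] at hw1 ⊢
        rcases hw1 with rfl | rfl | h | h
        · exact absurd hw h5
        · exact absurd hw h6
        · exact Or.inl h
        · exact Or.inr h
      have hc := card_le_card this
      rw [hcard] at hc
      revert hc
      decide

/-- **MP_285f62_co, Q1 (full answer: negative).**  There are a graph `G` (on nine vertices) and a
positive integer `t` (namely `t = 2`) such that `G(t)` and `G(t+1)` have triangle factors but `G`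
has none. -/
theorem result : ∃ (G : SimpleGraph (Fin 9)) (t : ℕ), 0 < t ∧
    HasTriangleFactor (blowUp G t) ∧ HasTriangleFactor (blowUp G (t + 1)) ∧
    ¬ HasTriangleFactor G :=
  ⟨G, 2, by norm_num, factor_two, factor_three, no_factor⟩

end Pool.Agent.Results.MP_285f62_co.BlowUps
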