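import Mathlib

/-!
# MP_285f62_co : triangle factors of a graph and of two consecutive blow-ups

Negative answer: a graph on 9 vertices without triangle factor such that `G(2)` and `G(3)` both have
triangle factors.
-/

namespace Pool.Agent.Results.MP_285f62_co.ConsecutiveBlowups

/-- The blow-up `G(t)`: every vertex `v` is replaced by the independent set `{v} × Fin t`. -/
def blowup {V : Type} (G : SimpleGraph V) (t : ℕ) : SimpleGraph (V × Fin t) where
  Adj x y := G.Adj x.1 y.1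
  symm := ⟨fun _ _ h => G.symm.symm _ _ h⟩
  loopless := ⟨fun x h => G.loopless.irrefl x.1 h⟩

/-- `H` has a triangle factor: a family of 3-cliques of `H` such that every vertex of `H` lies in
exactly one of them. -/
def HasTriangleFactor {W : Type} (H : SimpleGraph W) : Prop :=
  ∃ P : Set (Finset W), (∀ s ∈ P, H.IsNClique 3 s) ∧ ∀ v : W, ∃! s, s ∈ P ∧ v ∈ s

/-- adjacency of the counterexample: `K₅` on `{0,1,3,5,8}`, `K₄` on `{2,4,6,7}`, and the edges
`48, 68, 78` -/
def adj (i j : Fin 9) : Bool :=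
  (i != j) &&
    ((([0, 1, 3, 5, 8] : List (Fin 9)).contains i && ([0, 1, 3, 5, 8] : List (Fin 9)).contains j) ||
     (([2, 4, 6, 7] : List (Fin 9)).contains i && ([2, 4, 6, 7] : List (Fin 9)).contains j) ||
     (i == 8 && ([4, 6, 7] : List (Fin 9)).contains j) ||
     (j == 8 && ([4, 6, 7] : List (Fin 9)).contains i))

/-- the counterexample -/
def G₀ : SimpleGraph (Fin 9) where
  Adj i j := adj i j = true
  symm := ⟨by decide⟩
  loopless := ⟨by decide⟩

instance : DecidableRel G₀.Adj := fun i j => inferInstanceAs (Decidable (adj i j = true))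

instance (t : ℕ) : DecidableRel (blowup G₀ t).Adj :=
  fun x y => inferInstanceAs (Decidable (adj x.1 y.1 = true))

/-- turning a list of triangles into a triangle factor -/
lemma factor_of_fn {W : Type} [DecidableEq W] (H : SimpleGraph W) (m : ℕ) (a b c : Fin m → W)
    (h1 : ∀ i, H.Adj (a i) (b i) ∧ H.Adj (a i) (c i) ∧ H.Adj (b i) (c i))
    (h2 : ∀ v : W, ∃ i, (v = a i ∨ v = b i ∨ v = c i) ∧
      ∀ j, (v = a j ∨ v = b j ∨ v = c j) → j = i) :
    HasTriangleFactor H := by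
  refine ⟨Set.range fun i => ({a i, b i, c i} : Finset W), ?_, fun v => ?_⟩
  · rintro _ ⟨i, rfl⟩
    rw [SimpleGraph.is3Clique_iff]
    exact ⟨a i, b i, c i, (h1 i).1, (h1 i).2.1, (h1 i).2.2, rfl⟩
  · obtain ⟨i, hv, hu⟩ := h2 v
    refine ⟨{a i, b i, c i}, ⟨⟨i, rfl⟩, by simpa using hv⟩, ?_⟩
    rintro _ ⟨⟨j, rfl⟩, hj⟩
    have := hu j (by simpa using hj)
    rw [this]

lemma factor2 : HasTriangleFactor (blowup G₀ 2) := by
  refine factor_of_fn _ 6
    ![(0, 0), (0, 1), (1, 1), (2, 0), (2, 1), (4, 1)]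
    ![(1, 0), (5, 0), (3, 1), (4, 0), (6, 0), (6, 1)]
    ![(3, 0), (8, 0), (5, 1), (7, 0), (7, 1), (8, 1)] (by decide +kernel) ?_
  rintro ⟨u, i⟩
  revert u i
  decide +kernel

lemma factor3 : HasTriangleFactor (blowup G₀ 3) := by
  refine factor_of_fn _ 9
    ![(0, 0), (0, 1), (0, 2), (1, 1), (1, 2), (2, 0), (2, 1), (2, 2), (4, 2)]
    ![(1, 0), (3, 0), (5, 0), (3, 1), (3, 2), (4, 0), (4, 1), (6, 1), (6, 2)]
    ![(8, 0), (8, 1), (8, 2), (5, 1), (5, 2), (6, 0), (7, 0), (7, 1), (7, 2)]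
    (by decide +kernel) ?_
  rintro ⟨u, i⟩
  revert u i
  decide +kernel

lemma check : ∀ b c : Fin 9, adj 2 b = true → adj 2 c = true → adj b c = true →
    ∃ w : Fin 9, (w ≠ 2 ∧ w ≠ b ∧ w ≠ c) ∧
      ∀ x y : Fin 9, adj w x = true → adj w y = true → adj x y = true →
        (x = 2 ∨ x = b ∨ x = c) ∨ (y = 2 ∨ y = b ∨ y = c) := by
  decide +kernel

lemma clique_at (s : Finset (Fin 9)) (hs : G₀.IsNClique 3 s) (v : Fin 9) (hv : v ∈ s) :
    ∃ x y, s = {v, x, y} ∧ adj v x = true ∧ adj v y = true ∧ adj x y = true := by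
  rw [SimpleGraph.is3Clique_iff] at hs
  obtain ⟨a, b, c, hab, hac, hbc, rfl⟩ := hs
  simp only [Finset.mem_insert, Finset.mem_singleton] at hv
  rcases hv with rfl | rfl | rfl
  · exact ⟨b, c, rfl, hab, hac, hbc⟩
  · exact ⟨a, c, by rw [Finset.insert_comm], G₀.symm.symm _ _ hab, hbc, hac⟩
  · refine ⟨a, b, ?_, G₀.symm.symm _ _ hac, G₀.symm.symm _ _ hbc, hab⟩
    ext x
    simp only [Finset.mem_insert, Finset.mem_singleton]
    tauto

lemma no_factor : ¬ HasTriangleFactor G₀ := by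
  rintro ⟨P, hP, hcov⟩
  obtain ⟨s, ⟨hs, h2s⟩, -⟩ := hcov 2
  obtain ⟨b, c, rfl, hb, hc, hbc⟩ := clique_at s (hP s hs) 2 h2s
  obtain ⟨w, hw, hw'⟩ := check b c hb hc hbc
  obtain ⟨s', ⟨hs', hws'⟩, -⟩ := hcov w
  obtain ⟨x, y, rfl, hx, hy, hxy⟩ := clique_at s' (hP s' hs') w hws'
  have key : ∀ z : Fin 9, (z = 2 ∨ z = b ∨ z = c) → (z = x ∨ z = y) → False := by
    intro z hz hz'
    have h1 : z ∈ ({2, b, c} : Finset (Fin 9)) := by simpa using hz
    have h2 : z ∈ ({w, x, y} : Finset (Fin 9)) := by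
      simp only [Finset.mem_insert, Finset.mem_singleton]
      tauto
    have h3 : ({2, b, c} : Finset (Fin 9)) = {w, x, y} := (hcov z).unique ⟨hs, h1⟩ ⟨hs', h2⟩
    have h4 : w ∈ ({2, b, c} : Finset (Fin 9)) := by rw [h3]; simp
    simp only [Finset.mem_insert, Finset.mem_singleton] at h4
    tauto
  rcases hw' x y hx hy hxy with h | h
  · exact key x h (Or.inl rfl)
  · exact key y h (Or.inr rfl)

/-- **Negative answer to MP_285f62 Q1** (with `t = 2`): there is a graph `G` on 9 vertices without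
triangle factor such that `G(2)` and `G(3)` both have triangle factors. -/
theorem result : ∃ G : SimpleGraph (Fin 9), HasTriangleFactor (blowup G 2) ∧
    HasTriangleFactor (blowup G 3) ∧ ¬ HasTriangleFactor G :=
  ⟨G₀, factor2, factor3, no_factor⟩

end Pool.Agent.Results.MP_285f62_co.ConsecutiveBlowups
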